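import Mathlib

set_option autoImplicit false

namespace Pool.Agent.Results.MP_a09c40_gt.Counter

open Set Topology
open Cardinal hiding univ

abbrev O (n : ℕ) : Type := (ℵ_ (n + 1)).ord.ToType

lemma card_O (n : ℕ) : #(O n) = ℵ_ (n + 1) := mk_ord_toType _

lemma bdd (n : ℕ) {ι : Type} (h : #ι ≤ ℵ_ n) (f : ι → O n) : ∃ b, ∀ i, f i < b := by
  by_contra h1
  push Not at h1
  have h2 : (univ : Set (O n)) ⊆ ⋃ i, insert (f i) (Iio (f i)) := fun b _ =>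
    let ⟨i, hi⟩ := h1 b
    mem_iUnion.2 ⟨i, hi.eq_or_lt⟩
  have h3 := (mk_le_mk_of_subset h2).trans (mk_iUnion_le _)
  rw [mk_univ, card_O] at h3
  refine (aleph_lt_aleph.2 (lt_add_one (n : Ordinal))).not_ge (h3.trans
    (mul_le_of_le (aleph0_le_aleph _) h (ciSup_le' fun i => mk_insert_le.trans ?_)))
  refine add_le_of_le (aleph0_le_aleph _) ?_ (one_le_aleph0.trans (aleph0_le_aleph _))
  exact Order.lt_succ_iff.1 ((mk_Iio_toType_ord_lt (f i)).trans_eq (succ_aleph _).symm)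

def X : Type := (∀ n, O n) ⊕ (Σ n, O n)

def A (n : ℕ) (d : O n) : Set X :=
  {p | (∃ x, p = .inl x ∧ x n ≤ d) ∨ ∃ e, p = .inr ⟨n, e⟩ ∧ e ≤ d}

def N (x : ∀ n, O n) (m : ℕ) : Set X := {p | ∃ y, p = .inl y ∧ x ≤ y ∧ ∀ i < m, y i = x i}

instance : TopologicalSpace X where
  IsOpen V := (∀ n d, .inr ⟨n, d⟩ ∈ V → (A n d \ V).Finite) ∧ ∀ x, .inl x ∈ V → ∃ m, N x m ⊆ V
  isOpen_univ := ⟨fun _ _ _ => by simp, fun _ _ => ⟨0, subset_univ _⟩⟩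
  isOpen_inter U V hU hV := by
    refine ⟨fun n d h => ?_, fun x h => ?_⟩
    · rw [sdiff_inter]
      exact (hU.1 n d h.1).union (hV.1 n d h.2)
    · obtain ⟨a, ha⟩ := hU.2 x h.1
      obtain ⟨b, hb⟩ := hV.2 x h.2
      refine ⟨max a b, ?_⟩
      rintro _ ⟨y, rfl, h1, h2⟩
      exact ⟨ha ⟨y, rfl, h1, fun i hi => h2 i (by omega)⟩, hb ⟨y, rfl, h1, fun i hi => h2 i (by omega)⟩⟩
  isOpen_sUnion s hs := ⟨fun n d ⟨V, h1, h2⟩ => ((hs V h1).1 n d h2).subset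
      (sdiff_subset_sdiff_right (subset_sUnion_of_mem h1)),
    fun x ⟨V, h1, h2⟩ => ((hs V h1).2 x h2).imp fun _ h => h.trans (subset_sUnion_of_mem h1)⟩

instance : T1Space X := ⟨fun p => ⟨⟨fun n d _ => (finite_singleton p).subset (by simp), by
  intro x hx
  rcases p with y | q
  · obtain ⟨i, hi⟩ := Function.ne_iff.1 (show y ≠ x from fun e => hx (by rw [e]; rfl))
    refine ⟨i + 1, ?_⟩
    rintro _ ⟨z, rfl, -, h⟩ e
    cases e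
    exact hi (h i i.lt_succ_self)
  · refine ⟨0, ?_⟩
    rintro _ ⟨z, rfl, -⟩ e
    cases e⟩⟩⟩

lemma A_open (n : ℕ) (d : O n) : IsOpen (A n d) := by
  refine ⟨?_, ?_⟩
  · rintro m e (⟨x, h, -⟩ | ⟨e', h, h1⟩) <;> cases h
    refine finite_empty.subset ?_
    rintro _ ⟨⟨x, rfl, h2⟩ | ⟨x, rfl, h2⟩, h3⟩
    · exact h3 (Or.inl ⟨x, rfl, h2.trans h1⟩)
    · exact h3 (Or.inr ⟨x, rfl, h2.trans h1⟩)
  · rintro x (⟨y, h, h1⟩ | ⟨e', h, -⟩) <;> cases h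
    refine ⟨n + 1, ?_⟩
    rintro _ ⟨z, rfl, -, h⟩
    exact Or.inl ⟨z, rfl, (h n n.lt_succ_self).trans_le h1⟩

lemma N_open (x : ∀ n, O n) : IsOpen (N x 0) := by
  refine ⟨?_, ?_⟩
  · rintro n d ⟨y, h, -⟩
    cases h
  · rintro y ⟨z, h, h1, -⟩
    cases h
    refine ⟨0, ?_⟩
    rintro _ ⟨z, rfl, h2, -⟩
    exact ⟨z, rfl, h1.trans h2, by simp⟩

lemma A_compact (n : ℕ) (d : O n) : IsCompact (A n d) := by
  refine isCompact_of_finite_subcover fun U hU h => ?_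
  obtain ⟨i, hi⟩ := mem_iUnion.1 (h (Or.inr ⟨d, rfl, le_rfl⟩))
  obtain ⟨t, ht⟩ := ((hU i).1 n d hi).isCompact.elim_finite_subcover U hU (sdiff_subset.trans h)
  classical
  refine ⟨insert i t, fun p hp => ?_⟩
  rw [Finset.set_biUnion_insert]
  by_cases h1 : p ∈ U i
  · exact Or.inl h1
  · exact Or.inr (ht ⟨hp, h1⟩)

lemma bdd1 {D : Set X} (hD : IsDiscrete D) (n : ℕ) : ∃ b, ∀ d, .inr ⟨n, d⟩ ∈ D → d < b := by
  by_contra h
  push Not at h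
  by_cases h1 : {d | (.inr ⟨n, d⟩ : X) ∈ D}.Finite
  · obtain ⟨b, hb⟩ := bdd n (h1.lt_aleph0.le.trans (aleph0_le_aleph _)) Subtype.val
    obtain ⟨d, h2, h3⟩ := h b
    exact (hb ⟨d, h2⟩).not_ge h3
  · let e := Set.Infinite.natEmbedding _ h1
    obtain ⟨b, hb⟩ := bdd n (mk_nat.le.trans (aleph0_le_aleph _)) fun i => (e i).1
    obtain ⟨d, h2, h3⟩ := h b
    obtain ⟨V, h4, h5⟩ := isDiscrete_iff_forall_mem_exists_isOpen.1 hD _ h2
    have h6 : (.inr ⟨n, d⟩ : X) ∈ V := (h5.ge rfl).1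
    refine infinite_of_injective_forall_mem (s := A n d \ V) (f := fun i => (.inr ⟨n, (e i).1⟩ : X))
      (fun i j h7 => ?_) (fun i => ⟨Or.inr ⟨_, rfl, (hb i).le.trans h3⟩, fun h7 => ?_⟩)
      (h4.1 n d h6)
    · exact e.injective (Subtype.ext (sigma_mk_injective (Sum.inr_injective h7)))
    · exact ((hb i).trans_le h3).ne (sigma_mk_injective (Sum.inr_injective (h5.le ⟨h7, (e i).2⟩)))

lemma bdd2 {D : Set X} (hD : IsDiscrete D) : ∃ f : ∀ n, O n, ∀ x, .inl x ∈ D → ∃ n, x n ≤ f n := by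
  classical
  by_contra h
  push Not at h
  obtain ⟨x0⟩ : Nonempty (∀ n, O n) :=
    ⟨fun n => (bdd n (ι := PEmpty) (by simp) fun i => i.elim).choose⟩
  have h1 : ∀ (m : ℕ) (s : ∀ i : Fin m, O i), ∃ g : ∀ n, O n, ∀ x, .inl x ∈ D →
      N x m ∩ D ⊆ {.inl x} → (∀ i : Fin m, x i = s i) →
      N g m ∩ D ⊆ {.inl g} ∧ ∀ i : Fin m, g i = s i := by
    intro m s
    by_cases h1 : ∃ x, N x m ∩ D ⊆ {.inl x} ∧ ∀ i : Fin m, x i = s i
    · exact h1.imp fun g hg _ _ _ _ => hg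
    · exact ⟨x0, fun x _ h2 h3 => absurd ⟨x, h2, h3⟩ h1⟩
  choose g hg using h1
  have h2 : ∀ n m : ℕ, ∃ b, m ≤ n → ∀ s, g m s n < b := by
    intro n m
    by_cases hm : m ≤ n
    swap
    · exact ⟨x0 n, fun h => absurd h hm⟩
    refine (bdd n ?_ _).imp fun _ h _ => h
    rw [mk_pi]
    refine (prod_le_prod _ (fun _ => ℵ_ n) fun i => ?_).trans ?_
    · rw [card_O, aleph_le_aleph]
      exact_mod_cast i.2.trans_le hm
    · simpa using power_nat_le (aleph0_le_aleph _)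
  choose b hb using h2
  choose f hf using fun n => bdd n (mk_nat.le.trans (aleph0_le_aleph _)) (b n)
  obtain ⟨x, h3, h4⟩ := h f
  obtain ⟨V, h5, h6⟩ := isDiscrete_iff_forall_mem_exists_isOpen.1 hD _ h3
  obtain ⟨m, hm⟩ := h5.2 x (h6.ge rfl).1
  obtain ⟨h7, h8⟩ := hg m (fun i => x i) x h3 (fun p hp => h6.le ⟨hm hp.1, hp.2⟩) fun _ => rfl
  have h9 : ∀ n, m ≤ n → g m (fun i => x i) n < x n := fun n hn =>
    ((hb n m hn _).trans (hf n m)).trans (h4 n)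
  have := h7 ⟨⟨x, rfl, fun n => ?_, fun i hi => (h8 ⟨i, hi⟩).symm⟩, h3⟩
  · exact (h9 m le_rfl).ne' (congrFun (Sum.inl_injective this) m)
  · rcases lt_or_ge n m with l | l
    · exact (h8 ⟨n, l⟩).le
    · exact (h9 n l).le

theorem result : ∃ (Y : Type) (_ : TopologicalSpace Y), T1Space Y ∧
    (∀ D : Set Y, DiscreteTopology D → ∃ L : Set Y, IsLindelof L ∧ D ⊆ L) ∧
    ∃ 𝒰 : Set (Set Y), (∀ U ∈ 𝒰, IsOpen U) ∧ ⋃₀ 𝒰 = univ ∧
      ∀ 𝒱 ⊆ 𝒰, 𝒱.Countable → ¬ Dense (⋃₀ 𝒱) := by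
  refine ⟨X, inferInstance, inferInstance, fun D hD => ?_, range fun q : Σ n, O n => A q.1 q.2,
    forall_mem_range.2 fun q => A_open _ _, eq_univ_of_forall ?_, fun 𝒱 h1 h2 h3 => ?_⟩
  · choose b hb using bdd1 ⟨hD⟩
    obtain ⟨f, hf⟩ := bdd2 ⟨hD⟩
    refine ⟨⋃ n, A n (max (b n) (f n)), isLindelof_iUnion fun n => (A_compact _ _).isLindelof, ?_⟩
    rintro (x | ⟨n, d⟩) hx
    · obtain ⟨n, hn⟩ := hf x hx
      exact mem_iUnion.2 ⟨n, Or.inl ⟨x, rfl, le_max_of_le_right hn⟩⟩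
    · exact mem_iUnion.2 ⟨n, Or.inr ⟨d, rfl, le_max_of_le_left (hb n d hx).le⟩⟩
  · rintro (x | ⟨n, d⟩)
    · exact ⟨_, ⟨⟨0, x 0⟩, rfl⟩, Or.inl ⟨x, rfl, le_rfl⟩⟩
    · exact ⟨_, ⟨⟨n, d⟩, rfl⟩, Or.inr ⟨d, rfl, le_rfl⟩⟩
  · choose q hq using fun V : 𝒱 => h1 V.2
    have := h2.to_subtype
    have h4 : ∀ n, ∃ b : O n, ∀ d : {d : O n // ⟨n, d⟩ ∈ range q}, d.1 < b := fun n =>
      bdd n ((le_aleph0_iff_set_countable.2 ((countable_range q).preimage_of_injOn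
        sigma_mk_injective.injOn)).trans (aleph0_le_aleph _)) _
    choose f hf using h4
    obtain ⟨_, ⟨y, rfl, h5, -⟩, V, h6, h7⟩ := h3.inter_open_nonempty _ (N_open f)
      ⟨_, f, rfl, le_rfl, by simp⟩
    rw [show V = _ from (hq ⟨V, h6⟩).symm] at h7
    rcases h7 with ⟨x, e, h8⟩ | ⟨x, e, -⟩ <;> cases e
    exact ((hf _ ⟨_, ⟨V, h6⟩, rfl⟩).trans_le (h5 _)).not_ge h8

end Pool.Agent.Results.MP_a09c40_gt.Counter
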